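import Mathlib

/-!
A tree of discs tangent to the horizontal axis, with ply `d`, that forces more than `K` colours
in every conflict-free colouring as soon as `d > K ^ 2`.

A pair `q = (a, r)` stands for the disc of radius `r` with centre `(a, r)`.
-/

namespace Pool.Agent.P.MP_f0f1b2_co

open Finset

/-- The length scale at height `d` of the tree. -/
noncomputable def N (K : ℕ) : ℕ → ℝ
  | 0 => 2 * (K : ℝ) ^ 2 + 2
  | d + 1 => 2 * (N K d) ^ 2

/-- The radius of the root disc of a tree of height `d`. -/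
noncomputable def rad (K d : ℕ) : ℝ := (N K d) ^ 2 / 2

/-- The point `(x, z)` lies in the disc with centre `(q.1, q.2)` and radius `q.2`. -/
def inD (q : ℝ × ℝ) (x z : ℝ) : Prop := (x - q.1) ^ 2 + (z - q.2) ^ 2 ≤ q.2 ^ 2

/-- The abscissa of the `m`-th subtree. -/
noncomputable def ctr (K d : ℕ) (a : ℝ) (m : ℕ) : ℝ := a + ((m : ℝ) - 1 / 2) * N K (d + 1)

open Classical in
/-- The tree of discs of height `d` with root at abscissa `a`. -/
noncomputable def fam (K : ℕ) : ℕ → ℝ → Finset (ℝ × ℝ)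
  | 0, _ => ∅
  | d + 1, a => insert (a, rad K (d + 1))
      ((Finset.Icc 1 K).biUnion fun m => fam K d (ctr K d a m))

lemma N_ge (K : ℕ) : ∀ d, 2 * (K : ℝ) ^ 2 + 2 ≤ N K d
  | 0 => le_rfl
  | d + 1 => by
    have h := N_ge K d
    have hK : (0 : ℝ) ≤ (K : ℝ) ^ 2 := sq_nonneg _
    show 2 * (K : ℝ) ^ 2 + 2 ≤ 2 * (N K d) ^ 2
    nlinarith

lemma N_pos (K d : ℕ) : 0 < N K d := by
  have h := N_ge K d
  have hK : (0 : ℝ) ≤ (K : ℝ) ^ 2 := sq_nonneg _
  linarith

lemma N_ge_two_mul (K d : ℕ) : 2 * (K : ℝ) ≤ N K d := by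
  have h := N_ge K d
  nlinarith [sq_nonneg ((K : ℝ) - 1)]

lemma rad_pos (K d : ℕ) : 0 < rad K d := by
  have := N_pos K d
  unfold rad
  positivity

lemma rad_eq (K d : ℕ) : rad K d = N K (d + 1) / 4 := by
  show (N K d) ^ 2 / 2 = 2 * (N K d) ^ 2 / 4
  ring

lemma mem_fam_succ {K d : ℕ} {a : ℝ} {q : ℝ × ℝ} :
    q ∈ fam K (d + 1) a ↔
      q = (a, rad K (d + 1)) ∨ ∃ m, 1 ≤ m ∧ m ≤ K ∧ q ∈ fam K d (ctr K d a m) := by
  classical
  simp only [fam, Finset.mem_insert, Finset.mem_biUnion, Finset.mem_Icc, and_assoc]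

lemma fam_range (K : ℕ) : ∀ (d : ℕ) (a : ℝ) (q : ℝ × ℝ), q ∈ fam K d a →
    0 < q.2 ∧ a - rad K d ≤ q.1 - q.2 ∧ q.1 + q.2 ≤ a + rad K d
  | 0, _, _, h => by simp [fam] at h
  | d + 1, a, q, h => by
    rcases mem_fam_succ.1 h with rfl | ⟨m, hm1, hmK, hq⟩
    · exact ⟨rad_pos _ _, le_rfl, le_rfl⟩
    · obtain ⟨h0, h1, h2⟩ := fam_range K d _ q hq
      have hN := N_pos K (d + 1)
      have hN2 := N_ge_two_mul K (d + 1)
      have hm1' : (1 : ℝ) ≤ m := by exact_mod_cast hm1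
      have hmK' : (m : ℝ) ≤ K := by exact_mod_cast hmK
      have hr := rad_pos K (d + 1)
      rw [rad_eq] at h1 h2
      unfold ctr at h1 h2
      refine ⟨h0, by nlinarith, ?_⟩
      unfold rad
      nlinarith

/-- Every disc of the `m`-th subtree lies in the `m`-th vertical strip. -/
lemma strip {K d : ℕ} {a : ℝ} {m : ℕ} {q : ℝ × ℝ} (hq : q ∈ fam K d (ctr K d a m)) {x : ℝ}
    (h1 : q.1 - q.2 ≤ x) (h2 : x ≤ q.1 + q.2) :
    a + ((m : ℝ) - 3 / 4) * N K (d + 1) ≤ x ∧ x ≤ a + ((m : ℝ) - 1 / 4) * N K (d + 1) := by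
  obtain ⟨-, h3, h4⟩ := fam_range K d _ q hq
  rw [rad_eq] at h3 h4
  unfold ctr at h3 h4
  constructor <;> linarith

lemma strip_unique {L a x : ℝ} (hL : 0 < L) {m m' : ℕ}
    (h : a + ((m : ℝ) - 3 / 4) * L ≤ x ∧ x ≤ a + ((m : ℝ) - 1 / 4) * L)
    (h' : a + ((m' : ℝ) - 3 / 4) * L ≤ x ∧ x ≤ a + ((m' : ℝ) - 1 / 4) * L) : m = m' := by
  obtain ⟨h1, h2⟩ := h
  obtain ⟨h3, h4⟩ := h'
  have e1 : (m : ℝ) < m' + 1 := by
    by_contra hc
    push Not at hc
    nlinarith
  have e2 : (m' : ℝ) < m + 1 := by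
    by_contra hc
    push Not at hc
    nlinarith
  have e1' : m < m' + 1 := by exact_mod_cast e1
  have e2' : m' < m + 1 := by exact_mod_cast e2
  omega

lemma inD_range {q : ℝ × ℝ} (hq : 0 < q.2) {x z : ℝ} (h : inD q x z) :
    q.1 - q.2 ≤ x ∧ x ≤ q.1 + q.2 := by
  unfold inD at h
  have h1 : (x - q.1) ^ 2 ≤ q.2 ^ 2 := by nlinarith [sq_nonneg (z - q.2)]
  have h2 := abs_le_of_sq_le_sq' h1 hq.le
  constructor <;> linarith [h2.1, h2.2]

open Classical in
/-- Over every abscissa there are at most `d` discs of the tree. -/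
lemma ply_le (K : ℕ) : ∀ (d : ℕ) (a x : ℝ),
    ((fam K d a).filter fun q => q.1 - q.2 ≤ x ∧ x ≤ q.1 + q.2).card ≤ d
  | 0, _, _ => by simp [fam]
  | d + 1, a, x => by
    by_cases hex : ∃ m, ∃ q ∈ fam K d (ctr K d a m), q.1 - q.2 ≤ x ∧ x ≤ q.1 + q.2
    · obtain ⟨m₀, q₀, hq₀, h1, h2⟩ := hex
      have hs := strip hq₀ h1 h2
      have hsub : ((fam K (d + 1) a).filter fun q => q.1 - q.2 ≤ x ∧ x ≤ q.1 + q.2) ⊆
          insert (a, rad K (d + 1))
            ((fam K d (ctr K d a m₀)).filter fun q => q.1 - q.2 ≤ x ∧ x ≤ q.1 + q.2) := by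
        intro q hq
        rw [Finset.mem_filter] at hq
        obtain ⟨hq, h3, h4⟩ := hq
        rcases mem_fam_succ.1 hq with rfl | ⟨m, -, -, hq⟩
        · exact Finset.mem_insert_self _ _
        · have := strip_unique (N_pos K (d + 1)) (strip hq h3 h4) hs
          subst this
          exact Finset.mem_insert_of_mem (Finset.mem_filter.2 ⟨hq, h3, h4⟩)
      have := ply_le K d (ctr K d a m₀) x
      calc _ ≤ _ := Finset.card_le_card hsub
        _ ≤ _ := Finset.card_insert_le _ _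
        _ ≤ d + 1 := by omega
    · have hsub : ((fam K (d + 1) a).filter fun q => q.1 - q.2 ≤ x ∧ x ≤ q.1 + q.2) ⊆
          {(a, rad K (d + 1))} := by
        intro q hq
        rw [Finset.mem_filter] at hq
        obtain ⟨hq, h3, h4⟩ := hq
        rcases mem_fam_succ.1 hq with rfl | ⟨m, -, -, hq⟩
        · exact Finset.mem_singleton_self _
        · exact absurd ⟨m, q, hq, h3, h4⟩ hex
      calc _ ≤ _ := Finset.card_le_card hsub
        _ ≤ d + 1 := by simp

/-- In the `m`-th strip the root disc contains the point at height `j ^ 2` iff `m ≤ j`. -/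
lemma root_iff {K d : ℕ} {a x : ℝ} {m j : ℕ} (hm : 1 ≤ m) (hj : j ≤ K)
    (hx : a + ((m : ℝ) - 3 / 4) * N K d ≤ x ∧ x ≤ a + ((m : ℝ) - 1 / 4) * N K d) :
    inD (a, rad K d) x ((j : ℝ) ^ 2) ↔ m ≤ j := by
  obtain ⟨h1, h2⟩ := hx
  have hN := N_pos K d
  have hN2 := N_ge K d
  have hm' : (1 : ℝ) ≤ m := by exact_mod_cast hm
  have hj' : (j : ℝ) ≤ K := by exact_mod_cast hj
  have hj0 : (0 : ℝ) ≤ j := Nat.cast_nonneg j
  set L := N K d with hL
  have key : inD (a, rad K d) x ((j : ℝ) ^ 2) ↔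
      (x - a) ^ 2 + (j : ℝ) ^ 4 ≤ (j : ℝ) ^ 2 * L ^ 2 := by
    unfold inD rad
    simp only
    rw [← hL]
    constructor <;> intro h <;> nlinarith
  rw [key]
  constructor
  · intro h
    by_contra hc
    have hc' : (j : ℝ) + 1 ≤ m := by exact_mod_cast (by omega : j + 1 ≤ m)
    have e1 : ((j : ℝ) + 1 / 4) * L ≤ x - a := by nlinarith
    have e2 : 0 < ((j : ℝ) + 1 / 4) * L := by positivity
    have e3 : (((j : ℝ) + 1 / 4) * L) ^ 2 ≤ (x - a) ^ 2 := by gcongr
    have e4 : 0 ≤ (j : ℝ) ^ 4 := by positivity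
    have e5 : 0 < L ^ 2 := by positivity
    nlinarith [mul_nonneg hj0 e5.le]
  · intro h
    have h' : (m : ℝ) ≤ j := by exact_mod_cast h
    have hj1 : (1 : ℝ) ≤ j := le_trans hm' h'
    have e0 : 0 ≤ x - a := by nlinarith
    have e1 : x - a ≤ ((j : ℝ) - 1 / 4) * L := by nlinarith
    have e3 : (x - a) ^ 2 ≤ (((j : ℝ) - 1 / 4) * L) ^ 2 := by gcongr
    have e4 : 2 * (j : ℝ) ^ 2 ≤ L := by nlinarith
    have e5 : (2 * (j : ℝ) ^ 2) ^ 2 ≤ L ^ 2 := by gcongr
    have e6 : 0 < L ^ 2 := by positivity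
    nlinarith [mul_nonneg (sub_nonneg.2 hj1) e6.le]

lemma root_center {K d : ℕ} {a : ℝ} {j : ℕ} (hj : j ≤ K) :
    inD (a, rad K d) a ((j : ℝ) ^ 2) := by
  have hN := N_pos K d
  have hN2 := N_ge_two_mul K d
  have hj' : (j : ℝ) ≤ K := by exact_mod_cast hj
  have hj0 : (0 : ℝ) ≤ j := Nat.cast_nonneg j
  unfold inD rad
  simp only
  have e1 : (j : ℝ) ≤ N K d := by linarith
  have e2 : (j : ℝ) ^ 2 ≤ (N K d) ^ 2 := by gcongr
  nlinarith [mul_nonneg (sq_nonneg (j : ℝ)) (sub_nonneg.2 e2)]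

lemma root_not_mem {K d : ℕ} {a : ℝ} {m : ℕ} (hm : 1 ≤ m) :
    (a, rad K (d + 1)) ∉ fam K d (ctr K d a m) := by
  intro hq
  have hr := rad_pos K (d + 1)
  have := (strip hq (x := a) (by simp [hr.le]) (by simp [hr.le])).1
  have hm' : (1 : ℝ) ≤ m := by exact_mod_cast hm
  have hN := N_pos K (d + 1)
  nlinarith

section Game

variable {α : Type*} [Fintype α] [DecidableEq α]

/-- The values of `h` have no gaps. -/
def NoGap (h : α → ℕ) : Prop := ∀ c i, 1 ≤ i → i ≤ h c → ∃ c', h c' = i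

omit [DecidableEq α] in
lemma NoGap.le_card {h : α → ℕ} (H : NoGap h) (c : α) : h c ≤ Fintype.card α := by
  classical
  have hsub : Finset.Icc 1 (h c) ⊆ Finset.univ.image h := by
    intro i hi
    rw [Finset.mem_Icc] at hi
    obtain ⟨c', hc'⟩ := H c i hi.1 hi.2
    exact Finset.mem_image.2 ⟨c', Finset.mem_univ _, hc'⟩
  have h1 := Finset.card_le_card hsub
  have h2 : (Finset.univ.image h).card ≤ Fintype.card α := Finset.card_image_le
  simp at h1
  omega

open Classical in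
/-- Number of discs of colour `c` containing the test point of level `i` over `x`. -/
noncomputable def cnt (K : ℕ) (col : ℝ × ℝ → α) (F : Finset (ℝ × ℝ)) (x : ℝ) (i : ℕ) (c : α) : ℕ :=
  (F.filter fun q => col q = c ∧ inD q x (((K + 1 - i : ℕ) : ℝ) ^ 2)).card

/-- Conflict-freeness at the test points, relative to a background in which colour `c`
occurs `h c + 1 - i` times at level `i`. -/
def Good (K : ℕ) (col : ℝ × ℝ → α) (F : Finset (ℝ × ℝ)) (h : α → ℕ) : Prop :=
  ∀ (x : ℝ) (i : ℕ), 1 ≤ i → i ≤ K → (∃ q ∈ F, inD q x (((K + 1 - i : ℕ) : ℝ) ^ 2)) →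
    ∃ c, (h c + 1 - i) + cnt K col F x i c = 1

omit [Fintype α] in
lemma cnt_center {K d : ℕ} (col : ℝ × ℝ → α) (a : ℝ) {i : ℕ} (hi : 1 ≤ i) (c : α) :
    cnt K col (fam K (d + 1) a) a i c = if col (a, rad K (d + 1)) = c then 1 else 0 := by
  classical
  have hin : inD (a, rad K (d + 1)) a (((K + 1 - i : ℕ) : ℝ) ^ 2) := root_center (by omega)
  have honly : ∀ q ∈ fam K (d + 1) a, inD q a (((K + 1 - i : ℕ) : ℝ) ^ 2) →
      q = (a, rad K (d + 1)) := by
    intro q hq hqa
    rcases mem_fam_succ.1 hq with h | ⟨m, hm1, -, hq⟩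
    · exact h
    · exfalso
      have hr := inD_range (fam_range K d _ q hq).1 hqa
      have := (strip hq hr.1 hr.2).1
      have hm' : (1 : ℝ) ≤ m := by exact_mod_cast hm1
      have hN := N_pos K (d + 1)
      nlinarith
  unfold cnt
  split_ifs with hc
  · rw [Finset.card_eq_one]
    refine ⟨(a, rad K (d + 1)), ?_⟩
    ext q
    simp only [Finset.mem_filter, Finset.mem_singleton]
    constructor
    · rintro ⟨hq, -, h2⟩
      exact honly q hq h2
    · rintro rfl
      exact ⟨mem_fam_succ.2 (Or.inl rfl), hc, hin⟩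
  · rw [Finset.card_eq_zero, Finset.filter_eq_empty_iff]
    rintro q hq ⟨h1, h2⟩
    rw [honly q hq h2] at h1
    exact hc h1

omit [Fintype α] in
lemma cnt_strip {K d : ℕ} (col : ℝ × ℝ → α) {a x : ℝ} {i m : ℕ} (hi : 1 ≤ i) (hm : 1 ≤ m)
    (hmK : m ≤ K)
    (hx : a + ((m : ℝ) - 3 / 4) * N K (d + 1) ≤ x ∧ x ≤ a + ((m : ℝ) - 1 / 4) * N K (d + 1))
    (c : α) :
    cnt K col (fam K (d + 1) a) x i c = cnt K col (fam K d (ctr K d a m)) x i c +
      if col (a, rad K (d + 1)) = c ∧ m ≤ K + 1 - i then 1 else 0 := by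
  classical
  have hroot : inD (a, rad K (d + 1)) x (((K + 1 - i : ℕ) : ℝ) ^ 2) ↔ m ≤ K + 1 - i :=
    root_iff hm (by omega) hx
  have hchild : ∀ q m', q ∈ fam K d (ctr K d a m') → inD q x (((K + 1 - i : ℕ) : ℝ) ^ 2) →
      q ∈ fam K d (ctr K d a m) := by
    intro q m' hq hqx
    have hr := inD_range (fam_range K d _ q hq).1 hqx
    have := strip_unique (N_pos K (d + 1)) (strip hq hr.1 hr.2) hx
    subst this
    exact hq
  unfold cnt
  split_ifs with hc
  · rw [← Finset.card_insert_of_notMem (a := (a, rad K (d + 1)))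
      (fun h => root_not_mem hm (Finset.mem_filter.1 h).1)]
    congr 1
    ext q
    simp only [Finset.mem_filter, Finset.mem_insert]
    constructor
    · rintro ⟨hq, h1, h2⟩
      rcases mem_fam_succ.1 hq with h | ⟨m', -, -, hq⟩
      · exact Or.inl h
      · exact Or.inr ⟨hchild q m' hq h2, h1, h2⟩
    · rintro (rfl | ⟨hq, h1, h2⟩)
      · exact ⟨mem_fam_succ.2 (Or.inl rfl), hc.1, hroot.2 hc.2⟩
      · exact ⟨mem_fam_succ.2 (Or.inr ⟨m, hm, hmK, hq⟩), h1, h2⟩
  · rw [add_zero]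
    congr 1
    ext q
    simp only [Finset.mem_filter]
    constructor
    · rintro ⟨hq, h1, h2⟩
      rcases mem_fam_succ.1 hq with h | ⟨m', -, -, hq⟩
      · subst h
        exact absurd ⟨h1, hroot.1 h2⟩ hc
      · exact ⟨hchild q m' hq h2, h1, h2⟩
    · rintro ⟨hq, h1, h2⟩
      exact ⟨mem_fam_succ.2 (Or.inr ⟨m, hm, hmK, hq⟩), h1, h2⟩

/-- The adversary argument. -/
theorem game {K : ℕ} (hK : Fintype.card α ≤ K) (col : ℝ × ℝ → α) :
    ∀ (d : ℕ) (a : ℝ) (h : α → ℕ), NoGap h → Good K col (fam K d a) h →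
      ∑ c, h c + d ≤ K ^ 2
  | 0, _, h, hg, _ => by
    have h1 : ∑ c, h c ≤ ∑ _c : α, K :=
      Finset.sum_le_sum fun c _ => (hg.le_card c).trans hK
    rw [Finset.sum_const, Finset.card_univ, smul_eq_mul] at h1
    have h2 : Fintype.card α * K ≤ K * K := Nat.mul_le_mul_right _ hK
    nlinarith
  | d + 1, a, h, hg, hG => by
    set c₀ := col (a, rad K (d + 1)) with hc₀
    set h' : α → ℕ := Function.update h c₀ (h c₀ + 1) with hh'
    have hc₀K : h c₀ ≤ K := (hg.le_card c₀).trans hK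
    have hother : 1 ≤ h c₀ → ∃ c, c ≠ c₀ ∧ h c = h c₀ := by
      intro h1
      obtain ⟨c, hc⟩ := hG a (h c₀) h1 hc₀K
        ⟨_, mem_fam_succ.2 (Or.inl rfl), root_center (by omega)⟩
      rw [cnt_center col a h1 c, ← hc₀] at hc
      by_cases hcc : c₀ = c
      · subst hcc
        simp at hc
      · rw [if_neg hcc] at hc
        exact ⟨c, fun e => hcc e.symm, by omega⟩
    have hg' : NoGap h' := by
      intro c i hi1 hi2
      by_cases hib : i = h c₀ + 1
      · exact ⟨c₀, by simp [hh', hib]⟩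
      · have hi3 : i ≤ h c := by
          by_cases hcc : c = c₀
          · subst hcc
            simp only [hh', Function.update_self] at hi2
            omega
          · simpa [hh', Function.update_of_ne hcc] using hi2
        obtain ⟨c', hc'⟩ := hg c i hi1 hi3
        by_cases hcc : c' = c₀
        · subst hcc
          obtain ⟨c'', hne, hc''⟩ := hother (by omega)
          exact ⟨c'', by simp [hh', Function.update_of_ne hne, hc'', hc']⟩
        · exact ⟨c', by simp [hh', Function.update_of_ne hcc, hc']⟩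
    have hbK : h c₀ + 1 ≤ K := by
      have := (hg'.le_card c₀).trans hK
      simpa [hh'] using this
    set m := K - h c₀ with hm
    have hm1 : 1 ≤ m := by omega
    have hmK : m ≤ K := by omega
    have hG' : Good K col (fam K d (ctr K d a m)) h' := by
      rintro x i hi1 hiK ⟨q, hq, hqx⟩
      have hr := inD_range (fam_range K d _ q hq).1 hqx
      have hs := strip hq hr.1 hr.2
      obtain ⟨c, hc⟩ := hG x i hi1 hiK ⟨q, mem_fam_succ.2 (Or.inr ⟨m, hm1, hmK, hq⟩), hqx⟩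
      refine ⟨c, ?_⟩
      rw [cnt_strip col hi1 hm1 hmK hs c, ← hc₀] at hc
      by_cases hcc : c₀ = c
      · subst hcc
        simp only [hh', Function.update_self]
        simp only [true_and] at hc
        split_ifs at hc with h3 <;> omega
      · have : h' c = h c := by simp [hh', Function.update_of_ne (Ne.symm hcc)]
        rw [this]
        simpa [hcc] using hc
    have ih := game hK col d (ctr K d a m) h' hg' hG'
    have hsum : ∑ c, h' c = ∑ c, h c + 1 := by
      rw [hh', Finset.sum_update_of_mem (Finset.mem_univ _),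
        ← Finset.add_sum_erase _ h (Finset.mem_univ c₀), Finset.sdiff_singleton_eq_erase]
      ring
    omega

/-- No colouring of the tree of height `K ^ 2 + 1` with at most `K` colours is conflict-free. -/
theorem no_colouring {K : ℕ} (hK : Fintype.card α ≤ K) (col : ℝ × ℝ → α)
    (H : ∀ x z : ℝ, (∃ q ∈ fam K (K ^ 2 + 1) 0, inD q x z) →
      ∃ q ∈ fam K (K ^ 2 + 1) 0, inD q x z ∧
        ∀ q' ∈ fam K (K ^ 2 + 1) 0, inD q' x z → col q' = col q → q' = q) : False := by
  classical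
  have := game hK col (K ^ 2 + 1) 0 (fun _ => 0) (by intro c i h1 h2; simp at h2; omega) (by
    intro x i hi1 _ hex
    obtain ⟨q, hq, hqx, hu⟩ := H x _ hex
    refine ⟨col q, ?_⟩
    have e : cnt K col (fam K (K ^ 2 + 1) 0) x i (col q) = 1 := by
      unfold cnt
      rw [Finset.card_eq_one]
      refine ⟨q, ?_⟩
      ext q'
      simp only [Finset.mem_filter, Finset.mem_singleton]
      constructor
      · rintro ⟨h1, h2, h3⟩
        exact hu q' h1 h3 h2
      · rintro rfl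
        exact ⟨hq, rfl, hqx⟩
    rw [e]
    show 0 + 1 - i + 1 = 1
    omega)
  simp at this

end Game

end Pool.Agent.P.MP_f0f1b2_co
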