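import Mathlib

/-!
A family of disks of ply at most `t` has a proper colouring with `9 t` colours.
-/

namespace Pool.Agent.P.MP_f0f1b2_co

open Finset Metric

lemma near_grid {r s : ℝ} (hs : |s| ≤ 2 * r) :
    ∃ i : Fin 3, |s - 7 / 5 * r * ((i : ℝ) - 1)| ≤ 7 / 10 * r := by
  obtain ⟨h1, h2⟩ := abs_le.1 hs
  by_cases ha : s ≤ -(7 / 10 * r)
  · exact ⟨0, abs_le.2 ⟨by simp; linarith, by simp; linarith⟩⟩
  · by_cases hb : s ≤ 7 / 10 * r
    · exact ⟨1, abs_le.2 ⟨by simp; linarith, by simp; linarith⟩⟩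
    · refine ⟨2, abs_le.2 ⟨?_, ?_⟩⟩ <;> norm_num <;> linarith

/-- The nine grid points around `z` at scale `r`. -/
noncomputable def grid (z : EuclideanSpace ℝ (Fin 2)) (r : ℝ) (i : Fin 3 × Fin 3) :
    EuclideanSpace ℝ (Fin 2) :=
  z + !₂[7 / 5 * r * ((i.1 : ℝ) - 1), 7 / 5 * r * ((i.2 : ℝ) - 1)]

lemma pierce {z z' : EuclideanSpace ℝ (Fin 2)} {r r' : ℝ} (hr : 0 < r) (h : r ≤ r')
    (hd : ‖z' - z‖ ≤ r + r') : ∃ i, grid z r i ∈ closedBall z' r' := by
  obtain ⟨w, hw, hw'⟩ : ∃ w, ‖w‖ ≤ 2 * r ∧ ‖z' - z - w‖ ≤ r' - r := by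
    by_cases hc : ‖z' - z‖ ≤ 2 * r
    · exact ⟨z' - z, hc, by simpa using h⟩
    · have h0 : 0 < ‖z' - z‖ := by linarith
      have h1 : 2 * r / ‖z' - z‖ ≤ 1 := (div_le_one h0).2 (by linarith)
      refine ⟨(2 * r / ‖z' - z‖) • (z' - z), ?_, ?_⟩
      · rw [norm_smul, Real.norm_of_nonneg (by positivity), div_mul_cancel₀ _ h0.ne']
      · rw [show z' - z - (2 * r / ‖z' - z‖) • (z' - z) = (1 - 2 * r / ‖z' - z‖) • (z' - z) by
          module, norm_smul, Real.norm_of_nonneg (by linarith), sub_mul, div_mul_cancel₀ _ h0.ne']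
        linarith
  obtain ⟨i, hi⟩ := near_grid ((PiLp.norm_apply_le w 0).trans hw)
  obtain ⟨j, hj⟩ := near_grid ((PiLp.norm_apply_le w 1).trans hw)
  refine ⟨(i, j), ?_⟩
  have h1 : ‖z + w - grid z r (i, j)‖ ≤ r := by
    rw [EuclideanSpace.norm_eq, Real.sqrt_le_left hr.le, Fin.sum_univ_two]
    simp only [grid, add_sub_add_left_eq_sub, PiLp.sub_apply, Real.norm_eq_abs, Matrix.cons_val_zero,
      Matrix.cons_val_one]
    have := pow_le_pow_left₀ (abs_nonneg _) hi 2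
    have := pow_le_pow_left₀ (abs_nonneg _) hj 2
    nlinarith
  rw [mem_closedBall, dist_comm, dist_eq_norm,
    show z' - grid z r (i, j) = z' - z - w + (z + w - grid z r (i, j)) by abel]
  exact (norm_add_le _ _).trans (by linarith)

theorem greedy {t : ℕ} (ζ : Set (EuclideanSpace ℝ (Fin 2)) → EuclideanSpace ℝ (Fin 2))
    (ρ : Set (EuclideanSpace ℝ (Fin 2)) → ℝ) (𝒟 : Finset (Set (EuclideanSpace ℝ (Fin 2)))) :
    (∀ D ∈ 𝒟, 0 < ρ D ∧ D = closedBall (ζ D) (ρ D)) →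
      (∀ p, {D ∈ (𝒟 : Set (Set (EuclideanSpace ℝ (Fin 2)))) | p ∈ D}.ncard ≤ t) →
        ∃ c : Set (EuclideanSpace ℝ (Fin 2)) → ℕ, (∀ D ∈ 𝒟, c D < 9 * t) ∧
          ∀ D ∈ 𝒟, ∀ D' ∈ 𝒟, D ≠ D' → ∀ p ∈ D, p ∈ D' → c D ≠ c D' := by
  classical
  induction 𝒟 using Finset.induction_on_min_value ρ with
  | empty => exact fun _ _ => ⟨fun _ => 0, by simp, by simp⟩
  | insert a s has hmin ih =>
    intro hd hp
    obtain ⟨c, hc1, hc2⟩ := ih (fun D hD => hd D (mem_insert_of_mem hD)) fun p => by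
      refine le_trans (Set.ncard_le_ncard ?_ ((Finset.finite_toSet _).subset fun _ h => h.1)) (hp p)
      exact fun D hD => ⟨mem_coe.2 (mem_insert_of_mem hD.1), hD.2⟩
    obtain ⟨ha, ha'⟩ := hd a (mem_insert_self _ _)
    set Nb := s.filter fun D => ∃ p ∈ a, p ∈ D with hNb
    have hsub : insert a Nb ⊆ univ.biUnion fun i =>
        (insert a s).filter fun D => grid (ζ a) (ρ a) i ∈ D := by
      intro D hD
      have : D ∈ insert a s ∧ ρ a ≤ ρ D ∧ ∃ p ∈ a, p ∈ D := by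
        rcases mem_insert.1 hD with rfl | hD
        · have : ζ D ∈ D := ha'.ge (mem_closedBall_self ha.le)
          exact ⟨mem_insert_self _ _, le_rfl, _, this, this⟩
        · exact ⟨mem_insert_of_mem (mem_filter.1 hD).1, hmin D (mem_filter.1 hD).1,
            (mem_filter.1 hD).2⟩
      obtain ⟨h1, h2, p, hpa, hpD⟩ := this
      rw [ha'] at hpa
      rw [(hd D h1).2] at hpD
      obtain ⟨i, hi⟩ := pierce (z := ζ a) (z' := ζ D) ha h2 (by
        rw [← dist_eq_norm]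
        linarith [dist_triangle_left (ζ D) (ζ a) p, mem_closedBall.1 hpa, mem_closedBall.1 hpD])
      exact mem_biUnion.2 ⟨i, mem_univ _, mem_filter.2 ⟨h1, (hd D h1).2 ▸ hi⟩⟩
    have hcard : (Nb.image c).card < (range (9 * t)).card := by
      have h1 := (card_le_card hsub).trans (card_biUnion_le_card_mul _ _ t fun i _ => by
        rw [← Set.ncard_coe_finset, coe_filter]
        exact hp (grid (ζ a) (ρ a) i))
      rw [card_insert_of_notMem (s := Nb) fun h => has (mem_filter.1 h).1] at h1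
      have h2 : (Nb.image c).card ≤ Nb.card := card_image_le
      simp only [card_univ, Fintype.card_prod, Fintype.card_fin, card_range] at h1 ⊢
      omega
    obtain ⟨k, hk, hk'⟩ := exists_mem_notMem_of_card_lt_card hcard
    have hne : ∀ D ∈ s, D ≠ a := fun D hD e => has (e ▸ hD)
    have key : ∀ D ∈ s, ∀ p ∈ a, p ∈ D → c D ≠ k := fun D hD p h1 h2 e =>
      hk' (mem_image.2 ⟨D, mem_filter.2 ⟨hD, p, h1, h2⟩, e⟩)
    refine ⟨Function.update c a k, fun D hD => ?_, fun D hD D' hD' hDD p h1 h2 => ?_⟩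
    · rcases mem_insert.1 hD with rfl | hD
      · simpa using hk
      · simpa [hne D hD] using hc1 D hD
    · rcases mem_insert.1 hD with e | e <;> rcases mem_insert.1 hD' with e' | e'
      · exact absurd (e.trans e'.symm) hDD
      · simpa [e, hne D' e'] using (key D' e' p (e ▸ h1) h2).symm
      · simpa [e', hne D e] using key D e p (e' ▸ h2) h1
      · simpa [hne D e, hne D' e'] using hc2 D e D' e' hDD p h1 h2

end Pool.Agent.P.MP_f0f1b2_co
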