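import Mathlib
import Pool.Agent.P.MP_f0f1b2_co.Construction

/-!
In a unique-maximum colouring of the tree of discs, the branch that continues in strip `m` below
a disc of colour `m` has pairwise different colours.
-/

namespace Pool.Agent.P.MP_f0f1b2_co

open Finset

/-- At the test point of height `j ^ 2`, a repeated colour `j` (possibly repeated in the
background `U`) is beaten by a larger colour. -/
def Beat (K : ℕ) (col : ℝ × ℝ → ℕ) (F : Finset (ℝ × ℝ)) (U : Finset ℕ) : Prop :=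
  ∀ (x : ℝ) (j : ℕ), j ≤ K → ∀ q ∈ F, inD q x ((j : ℝ) ^ 2) → col q = j →
    (j ∈ U ∨ ∃ q' ∈ F, q' ≠ q ∧ inD q' x ((j : ℝ) ^ 2) ∧ col q' = j) →
      ∃ q'' ∈ F, inD q'' x ((j : ℝ) ^ 2) ∧ j < col q''

theorem branch {K : ℕ} (col : ℝ × ℝ → ℕ) (hc : ∀ q, col q ∈ Icc 1 K) :
    ∀ (d : ℕ) (a : ℝ) (U : Finset ℕ), U ⊆ Icc 1 K → Beat K col (fam K d a) U → U.card + d ≤ K
  | 0, _, U, hU, _ => by simpa using card_le_card hU
  | d + 1, a, U, hU, H => by
    set m := col (a, rad K (d + 1)) with hm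
    obtain ⟨hm1, hmK⟩ := mem_Icc.1 (hc (a, rad K (d + 1)))
    have hroot : (a, rad K (d + 1)) ∈ fam K (d + 1) a := mem_fam_succ.2 (Or.inl rfl)
    have hmU : m ∉ U := fun h => by
      obtain ⟨q, hq, hqa, hlt⟩ := H a m hmK _ hroot (root_center hmK) rfl (Or.inl h)
      rcases mem_fam_succ.1 hq with rfl | ⟨m', hm', -, hq⟩
      · exact lt_irrefl _ hlt
      · have hr := inD_range (fam_range K d _ q hq).1 hqa
        have := (strip hq hr.1 hr.2).1
        have h1 : (1 : ℝ) ≤ m' := by exact_mod_cast hm'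
        have hN := N_pos K (d + 1)
        nlinarith
    have up : ∀ q ∈ fam K d (ctr K d a m), q ∈ fam K (d + 1) a := fun q hq =>
      mem_fam_succ.2 (Or.inr ⟨m, hm1, hmK, hq⟩)
    have H' : Beat K col (fam K d (ctr K d a m)) (insert m U) := by
      intro x j hj q hq hqx hqj hor
      have hr := inD_range (fam_range K d _ q hq).1 hqx
      have hs := strip hq hr.1 hr.2
      have hri : inD (a, rad K (d + 1)) x ((j : ℝ) ^ 2) ↔ m ≤ j := root_iff hm1 hj hs
      obtain ⟨q'', h1, h2, h3⟩ := H x j hj q (up q hq) hqx hqj (by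
        rcases hor with h | ⟨q', h1, h2, h3⟩
        · rcases mem_insert.1 h with h | h
          · exact Or.inr ⟨_, hroot, fun e => root_not_mem hm1 (e ▸ hq), hri.2 h.ge, h.symm⟩
          · exact Or.inl h
        · exact Or.inr ⟨q', up q' h1, h2, h3⟩)
      rcases mem_fam_succ.1 h1 with rfl | ⟨m', -, -, h1⟩
      · exact absurd (hri.1 h2) (not_le.2 h3)
      · have hr' := inD_range (fam_range K d _ q'' h1).1 h2
        obtain rfl := strip_unique (N_pos K (d + 1)) (strip h1 hr'.1 hr'.2) hs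
        exact ⟨q'', h1, h2, h3⟩
    have ih := branch col hc d _ (insert m U) (insert_subset (hc _) hU) H'
    rw [card_insert_of_notMem hmU] at ih
    omega

/-- The tree of height `K + 1` has no unique-maximum colouring with colours in `1, …, K`. -/
theorem no_um {K : ℕ} (col : ℝ × ℝ → ℕ) (hc : ∀ q, col q ∈ Icc 1 K)
    (H : ∀ x z : ℝ, (∃ q ∈ fam K (K + 1) 0, inD q x z) → ∃ q ∈ fam K (K + 1) 0, inD q x z ∧
      ∀ q' ∈ fam K (K + 1) 0, inD q' x z → q' ≠ q → col q' < col q) : False := by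
  have := branch col hc (K + 1) 0 ∅ (empty_subset _) (by
    rintro x j - q hq hqx hqj (h | ⟨q', hq', hne, hq'x, hq'j⟩)
    · simp at h
    · obtain ⟨r, hr, hrx, hmax⟩ := H x _ ⟨q, hq, hqx⟩
      refine ⟨r, hr, hrx, ?_⟩
      by_cases e : q = r
      · exact hq'j ▸ hmax q' hq' hq'x (e ▸ hne)
      · exact hqj ▸ hmax q hq hqx e)
  simp at this

/-- The closed disc with centre `(q.1, q.2)` and radius `q.2`. -/
def disk (q : ℝ × ℝ) : Set (EuclideanSpace ℝ (Fin 2)) := Metric.closedBall !₂[q.1, q.2] q.2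

lemma mem_disk {q : ℝ × ℝ} (hq : 0 < q.2) (p : EuclideanSpace ℝ (Fin 2)) :
    p ∈ disk q ↔ inD q (p 0) (p 1) := by
  simp only [disk, Metric.mem_closedBall, EuclideanSpace.dist_eq, Fin.sum_univ_two, inD,
    Real.dist_eq, sq_abs]
  rw [Real.sqrt_le_left hq.le]
  simp

lemma mem_disk' {q : ℝ × ℝ} (hq : 0 < q.2) (x z : ℝ) :
    (!₂[x, z] : EuclideanSpace ℝ (Fin 2)) ∈ disk q ↔ inD q x z := by
  rw [mem_disk hq]
  simp

lemma disk_inj {q q' : ℝ × ℝ} (hq : 0 < q.2) (hq' : 0 < q'.2) (h : disk q = disk q') : q = q' := by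
  have key : ∀ x z, inD q x z ↔ inD q' x z := fun x z => by
    rw [← mem_disk' hq, h, mem_disk' hq']
  have h1 := (key q.1 0).1 (by simp [inD])
  have h2 := (key q.1 (2 * q.2)).1 (by unfold inD; nlinarith)
  have h3 := (key q'.1 (2 * q'.2)).2 (by unfold inD; nlinarith)
  unfold inD at h1 h2 h3
  have e1 : q.1 = q'.1 := by
    have : (q.1 - q'.1) ^ 2 = 0 := by nlinarith [sq_nonneg (q.1 - q'.1)]
    have := pow_eq_zero_iff (two_ne_zero) |>.1 this
    linarith
  rw [e1] at h2 h3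
  exact Prod.ext e1 (by apply le_antisymm <;> nlinarith)

end Pool.Agent.P.MP_f0f1b2_co
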